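import Mathlib
import Pool.Agent.H.MP_a90892_an.A

namespace Pool.Agent.Results.MP_a90892_an.Convex

open Set Filter Topology TopologicalSpace Pool.Agent.H.MP_a90892_an Pointwise

set_option maxHeartbeats 400000

/-- Topological `(l, A)`-recurrence of a self-map `g`. -/
def Rec {Y : Type*} [TopologicalSpace Y] (g : Y → Y) (l : ℕ) (A : Set (Set ℕ)) : Prop :=
  ∀ U : Set Y, IsOpen U → U.Nonempty →
    {n : ℕ | (⋂ j ∈ Iic l, g^[j * n] ⁻¹' U).Nonempty} ∈ A

variable {X : Type*} [AddCommGroup X] [Module ℝ X] [TopologicalSpace X]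

/-- The hyperextension of `f` to nonempty compact sets. -/
def ext (f : X →L[ℝ] X) : NonemptyCompacts X → NonemptyCompacts X :=
  NonemptyCompacts.map f f.continuous

/-- Its restriction to nonempty compact convex sets. -/
def extC (f : X →L[ℝ] X) (K : {K : NonemptyCompacts X // Convex ℝ (K : Set X)}) :
    {K : NonemptyCompacts X // Convex ℝ (K : Set X)} :=
  ⟨ext f K.1, K.2.linear_image (f : X →ₗ[ℝ] X)⟩

theorem ext_iter (f : X →L[ℝ] X) (m : ℕ) (K : NonemptyCompacts X) :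
    ((ext f)^[m] K : Set X) = (f ^ m) '' K := by
  induction m with
  | zero => simp
  | succ m ih =>
    rw [Function.iterate_succ_apply', ext, NonemptyCompacts.coe_map, ← ext, ih, image_image,
      pow_succ']
    rfl

theorem extC_iter (f : X →L[ℝ] X) (m : ℕ) (K) : ((extC f)^[m] K).1 = (ext f)^[m] K.1 := by
  induction m with
  | zero => rfl
  | succ m ih => rw [Function.iterate_succ_apply', Function.iterate_succ_apply', ← ih]; rfl

variable [IsTopologicalAddGroup X] [ContinuousSMul ℝ X]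

theorem nbhd {ι : Type*} (f : X →L[ℝ] X) (l : ℕ) (s : Finset ι) (hs : s.Nonempty) (x : ι → X)
    (q : Seminorm ℝ X) (hq : Continuous q) (δ : ℝ) (hδ : δ > 0) :
    ∃ O : Set (NonemptyCompacts X), IsOpen O ∧ (∃ K ∈ O, Convex ℝ (K : Set X)) ∧
      ∀ n K, (∀ j ≤ l, (ext f)^[j * n] K ∈ O) →
        ∀ i ∈ s, ∃ y, q (y - x i) < δ ∧ ∀ j ≤ l, ∃ c ∈ convexHull ℝ (x '' s),
          q ((f ^ (j * n)) y - c) < δ := by
  have ho : ∀ c, IsOpen {y | q (y - c) < δ} := fun c =>
    isOpen_lt (hq.comp (continuous_id.sub continuous_const)) continuous_const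
  refine ⟨{K | (K : Set X) ⊆ ⋃ c ∈ convexHull ℝ (x '' s), {y | q (y - c) < δ}} ∩
    ⋂ i ∈ s, {K | ((K : Set X) ∩ {y | q (y - x i) < δ}).Nonempty}, ?_, ?_, ?_⟩
  · exact (NonemptyCompacts.isOpen_subsets_of_isOpen (isOpen_biUnion fun c _ => ho c)).inter
      (isOpen_biInter_finset fun i _ => NonemptyCompacts.isOpen_inter_nonempty_of_isOpen (ho _))
  · refine ⟨⟨⟨convexHull ℝ (x '' s), (s.finite_toSet.image x).isCompact_convexHull ℝ⟩,
      (hs.to_set.image x).convexHull⟩, ⟨fun c hc => ?_, mem_iInter₂.2 fun i hi => ?_⟩,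
      convex_convexHull _ _⟩
    · exact mem_biUnion hc (by simpa using hδ)
    · exact ⟨x i, subset_convexHull ℝ _ (mem_image_of_mem x hi), by simpa using hδ⟩
  · intro n K hK i hi
    obtain ⟨y, y1, y2⟩ := mem_iInter₂.1 (hK 0 (Nat.zero_le _)).2 i hi
    rw [zero_mul] at y1
    refine ⟨y, y2, fun j hj => ?_⟩
    have h1 := (hK j hj).1
    rw [mem_ofPred_eq, ext_iter] at h1
    simpa using h1 (mem_image_of_mem _ y1)

theorem result [LocallyConvexSpace ℝ X] (f : X →L[ℝ] X) (l : ℕ) (A : Set (Set ℕ))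
    (hA : ∀ a ∈ A, ∀ b, a ⊆ b → b ∈ A) :
    Rec (ext f) l A ↔ Rec (extC f) l A := by
  classical
  have h0 : Convex ℝ (({0} : NonemptyCompacts X) : Set X) := convex_singleton 0
  constructor
  · intro h
    have P := key (ι := Set X) f l A hA (hA _ (h univ isOpen_univ ⟨{0}, trivial⟩) _ (subset_univ _))
      fun s hs x q hq δ hδ => by
        obtain ⟨O, o1, ⟨K, o2, -⟩, o3⟩ := nbhd f l s hs x q hq δ hδ
        refine hA _ (h O o1 ⟨K, o2⟩) _ ?_
        rintro n ⟨K, hK⟩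
        exact o3 n K fun j hj => mem_iInter₂.1 hK j hj
    rintro U hU ⟨K, hK⟩
    obtain ⟨U', hU', rfl⟩ := isOpen_induced_iff.1 hU
    obtain ⟨_, ⟨u, ⟨u1, u2, u3⟩, rfl⟩, ⟨k1, k2⟩, hsub⟩ :=
      NonemptyCompacts.isTopologicalBasis.exists_subset_of_mem_open hK hU'
    obtain ⟨V, hV, hKV⟩ := compact_open_separated_add_right K.1.isCompact (isOpen_sUnion u3) k1
    obtain ⟨W, ⟨hW, hWc⟩, hWV⟩ := (LocallyConvexSpace.convex_basis_zero ℝ X).mem_iff.1 hV
    have hO : Convex ℝ ((K.1 : Set X) + interior W) := K.2.add hWc.interior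
    have hO2 : (K.1 : Set X) + interior W ⊆ ⋃₀ u :=
      (add_subset_add_left (interior_subset.trans hWV)).trans hKV
    refine hA _ (P u1.toFinset (fun Z => Z ∩ ((K.1 : Set X) + interior W)) fun Z hZ => ?_) _ ?_
    · have hZ := u1.mem_toFinset.1 hZ
      obtain ⟨y, y1, y2⟩ := k2 Z hZ
      exact ⟨(u3 Z hZ).inter isOpen_interior.add_left, y, y2, y, y1, 0,
        mem_interior_iff_mem_nhds.2 hW, add_zero y⟩
    · intro n hn
      choose! y hy using hn
      refine ⟨⟨⟨⟨convexHull ℝ (y '' u), (u1.image y).isCompact_convexHull ℝ⟩,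
        (u2.image y).convexHull⟩, convex_convexHull _ _⟩, mem_iInter₂.2 fun j hj => hsub ?_⟩
      rw [extC_iter, mem_ofPred_eq, ext_iter]
      constructor
      · refine Subset.trans (image_subset_iff.2 (convexHull_min ?_ ?_)) hO2
        · rintro _ ⟨Z, hZ, rfl⟩
          exact (hy Z (u1.mem_toFinset.2 hZ) j hj).2
        · exact hO.linear_preimage ((f ^ (j * n) : X →L[ℝ] X) : X →ₗ[ℝ] X)
      · intro Z hZ
        exact ⟨_, mem_image_of_mem _ (subset_convexHull ℝ _ (mem_image_of_mem y hZ)),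
          (hy Z (u1.mem_toFinset.2 hZ) j hj).1⟩
  · intro h
    have P := key (ι := Set X) f l A hA
      (hA _ (h univ isOpen_univ ⟨⟨{0}, h0⟩, trivial⟩) _ (subset_univ _))
      fun s hs x q hq δ hδ => by
        obtain ⟨O, o1, ⟨K, o2, o4⟩, o3⟩ := nbhd f l s hs x q hq δ hδ
        refine hA _ (h (Subtype.val ⁻¹' O) (o1.preimage continuous_subtype_val)
          ⟨⟨K, o4⟩, o2⟩) _ ?_
        rintro n ⟨K, hK⟩
        exact o3 n K fun j hj => extC_iter f _ K ▸ mem_iInter₂.1 hK j hj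
    rintro U hU ⟨K, hK⟩
    obtain ⟨_, ⟨u, ⟨u1, u2, u3⟩, rfl⟩, ⟨k1, k2⟩, hsub⟩ :=
      NonemptyCompacts.isTopologicalBasis.exists_subset_of_mem_open hK hU
    refine hA _ (P u1.toFinset id fun Z hZ => ?_) _ ?_
    · have hZ := u1.mem_toFinset.1 hZ
      exact ⟨u3 Z hZ, (k2 Z hZ).mono inter_subset_right⟩
    · intro n hn
      choose! y hy using hn
      refine ⟨⟨⟨y '' u, (u1.image y).isCompact⟩, u2.image y⟩, mem_iInter₂.2 fun j hj => hsub ?_⟩
      rw [mem_ofPred_eq, ext_iter]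
      constructor
      · rintro _ ⟨_, ⟨Z, hZ, rfl⟩, rfl⟩
        exact ⟨Z, hZ, hy Z (u1.mem_toFinset.2 hZ) j hj⟩
      · intro Z hZ
        exact ⟨_, mem_image_of_mem _ (mem_image_of_mem y hZ), hy Z (u1.mem_toFinset.2 hZ) j hj⟩

end Pool.Agent.Results.MP_a90892_an.Convex
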